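import Pool.Agent.Helper90.BPP.Main

/-!
There is an oracle relative to which the class BPP_path has no complete set, even for
many-one reductions that are computed in polynomial time with access to the oracle.

The class is `Pool.Agent.BPP.BPPpath A` and the reducibility is `Pool.Agent.BPP.ManyOne A`,
both defined in `Pool/Agent/Helper90/BPP/Defs.lean` through nondeterministic oracle Turing
machines.

Proof idea. Approximate counting (decide whether a set of strings is small or large, with
a constant factor gap) has no total extension of subexponential cost in the query model of
BPP_path. For a system of accepting and rejecting conjunctions with a total promise one
chooses a planted set maximising the sum, over a fine net of densities, of the average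
logarithm of the number of satisfied conjunctions, minus a small multiple of its size. At
such a maximum the answer on a random set is insensitive to planting the positive part of
any conjunction that avoids the few heavy negative elements. At a density where the answer
is balanced this contradicts the promise.
-/

namespace Pool.Agent.Results.MP_8ccf0a_lc.OracleNoComplete

open Pool.Agent.BPP

/-- For some oracle `A`, no language of BPP_path relative to `A` is hard for BPP_path
relative to `A` under polynomial-time many-one reductions relative to `A`. -/
theorem result : ∃ A : Oracle, ∀ C ∈ BPPpath A, ∃ L ∈ BPPpath A, ¬ ManyOne A L C :=
  main

end Pool.Agent.Results.MP_8ccf0a_lc.OracleNoComplete
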